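import Pool.Agent.H7.Pick5

namespace Pool.Agent.Results.MP_1a2443_an.Product

open Pool.Agent.H7.Pick
open scoped ComplexOrder Matrix InnerProductSpace ComplexConjugate

universe u

lemma schur_psd {X : Type u} {h : X → X → ℂ} (hh : IsKernel h) (z : X) : IsKernel (schur h z) := by
  classical
  refine psd_of_finite fun s => ?_
  obtain ⟨g, hg⟩ := gram_vec (hh.submatrix fun o : Option s => Option.elim o z Subtype.val)
  simp only [Matrix.submatrix_apply, Matrix.of_apply] at hg
  refine psd_congr (gram_psd fun i : s => g (some i) - (h z i / h z z) • g none) fun i j => ?_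
  have h1 := hg (some i) (some j)
  have h2 := hg (some i) none
  have h3 := hg none (some j)
  have h4 := hg none none
  simp only [Option.elim_some, Option.elim_none] at h1 h2 h3 h4
  simp only [Matrix.submatrix_apply, Matrix.of_apply, inner_sub_left, inner_sub_right,
    inner_smul_left, inner_smul_right, ← h1, ← h2, ← h3, ← h4, schur_eq, map_div₀, hh.conj]
  by_cases h0 : h z z = 0
  · simp [h0]
  · field_simp
    ring

/-- If `(k, l)` is a complete Pick pair and `h` is a kernel, then `(k, l h)` is a complete Pick
pair (all kernels non-vanishing on the diagonal). -/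
theorem result {X : Type u} (k l h : X → X → ℂ) (hk : IsKernel k) (hl : IsKernel l)
    (hh : IsKernel h) (hk0 : ∀ x, k x x ≠ 0) (hl0 : ∀ x, l x x ≠ 0) (hh0 : ∀ x, h x x ≠ 0)
    (hCP : IsCPPair k l) : IsCPPair k (fun x y => l x y * h x y) := by
  obtain ⟨p, hp⟩ := cert_of_CPpos hk hl hl0 (CPpos_of_CP hk hl hCP)
  have hlh : IsKernel (fun x y => l x y * h x y) := psd_congr (had hl hh) fun x y => rfl
  refine CP_of_CPpos (CPpos_of_good hk hlh hk0 fun N z => CertOn.good (p := p z) ⟨(hp z).1, ?_, ?_⟩)
  · have h1 := par_psd hl z id fun _ : X => (1 : ℂ)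
    refine psd_congr ((had (hp z).2.1 hh).add (had h1 (schur_psd hh z))) fun x y => ?_
    have := hl0 z
    have := hh0 z
    simp only [cut, Set.mem_univ, and_self, if_true, Matrix.of_apply, Matrix.add_apply,
      Matrix.hadamard_apply, schur_eq, id, RCLike.inner_apply, map_one]
    field_simp
    ring
  · exact psd_congr (hp z).2.2 fun x y => by simp [cut]

end Pool.Agent.Results.MP_1a2443_an.Product
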